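import Pool.Agent.W670.ML.Defs2

set_option autoImplicit false

/-!
# Project ML2, part IM: the index in composita
-/

namespace Pool.Agent.W505.ML2

open NumberField Pool.Agent.W670.ML

noncomputable section

/-- every embedding of an intermediate field extends to an automorphism -/
theorem exists_aut {K Ω : Type} [Field K] [Field Ω] [Algebra K Ω] [IsAlgClosure K Ω]
    (M : IntermediateField K Ω) (φ : ↥M →ₐ[K] Ω) :
    ∃ ρ : Ω ≃ₐ[K] Ω, ∀ x : M, ρ (x : Ω) = φ x := by
  have hn : Normal K Ω := IsAlgClosure.normal K Ω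
  have ha : Algebra.IsAlgebraic K Ω := IsAlgClosure.isAlgebraic
  refine ⟨AlgEquiv.ofBijective (φ.liftNormal Ω) (Algebra.IsAlgebraic.algHom_bijective _), ?_⟩
  intro x
  have := φ.liftNormal_commutes Ω x
  simpa using this

/-- the action of the automorphisms on the embeddings is transitive -/
theorem exists_trans {K Ω : Type} [Field K] [Field Ω] [Algebra K Ω] [IsAlgClosure K Ω]
    (M : IntermediateField K Ω) (φ ψ : ↥M →ₐ[K] Ω) :
    ∃ σ : Ω ≃ₐ[K] Ω, σ.toAlgHom.comp φ = ψ := by
  obtain ⟨ρ, hρ⟩ := exists_aut M φ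
  obtain ⟨ρ', hρ'⟩ := exists_aut M ψ
  refine ⟨ρ.symm.trans ρ', ?_⟩
  ext x
  change ρ' (ρ.symm (φ x)) = ψ x
  rw [← hρ, AlgEquiv.symm_apply_apply, hρ']

/-- composition with an automorphism -/
def actE {K Ω : Type} [Field K] [Field Ω] [Algebra K Ω] (M : IntermediateField K Ω)
    (σ : Ω ≃ₐ[K] Ω) : (↥M →ₐ[K] Ω) ≃ (↥M →ₐ[K] Ω) where
  toFun φ := σ.toAlgHom.comp φ
  invFun φ := σ.symm.toAlgHom.comp φ
  left_inv φ := by
    ext x
    exact σ.symm_apply_apply (φ x)
  right_inv φ := by
    ext x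
    exact σ.apply_symm_apply (φ x)

/-- the field of the elements on which two automorphisms agree -/
def eqF {K Ω : Type} [Field K] [Field Ω] [Algebra K Ω] (σ τ : Ω ≃ₐ[K] Ω) :
    IntermediateField K Ω where
  carrier := {x | σ x = τ x}
  mul_mem' {a b} ha hb := by
    change σ (a * b) = τ (a * b)
    rw [map_mul, map_mul]
    exact congrArg₂ (· * ·) ha hb
  add_mem' {a b} ha hb := by
    change σ (a + b) = τ (a + b)
    rw [map_add, map_add]
    exact congrArg₂ (· + ·) ha hb
  algebraMap_mem' r := by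
    change σ (algebraMap K Ω r) = τ (algebraMap K Ω r)
    rw [AlgEquiv.commutes, AlgEquiv.commutes]
  inv_mem' a ha := by
    change σ a⁻¹ = τ a⁻¹
    rw [map_inv₀, map_inv₀]
    exact congrArg (·⁻¹) ha

theorem im (h1 : S_IQ) : S_IM := by
  intro K Ω _ _ _ _ _ n k m r G H L hn hL hm hH h hh hne
  obtain ⟨-, eH, hH'⟩ := hH
  obtain ⟨σ, hσ⟩ := (hH' h).1 hh
  -- an embedding which is moved
  have h2 : ∃ φ : ↥(⨆ i, L i) →ₐ[K] Ω, σ.toAlgHom.comp φ ≠ φ := by
    by_contra hcon
    push Not at hcon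
    apply hne
    ext a
    have h3 := hσ (eH.symm a)
    rw [hcon, Equiv.apply_symm_apply] at h3
    rw [h3]
    rfl
  obtain ⟨φ0, hφ0⟩ := h2
  have h3 : ∃ i, σ.toAlgHom.comp (φ0.comp (IntermediateField.inclusion (le_iSup L i))) ≠
      φ0.comp (IntermediateField.inclusion (le_iSup L i)) := by
    by_contra hcon
    push Not at hcon
    apply hφ0
    obtain ⟨ρ, hρ⟩ := exists_aut _ φ0
    have h4 : (⨆ i, L i) ≤ eqF (ρ.trans σ) ρ := by
      refine iSup_le fun i x hx => ?_
      change σ (ρ x) = ρ x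
      have h5 := DFunLike.congr_fun (hcon i) (⟨x, hx⟩ : L i)
      have h6 : φ0 (IntermediateField.inclusion (le_iSup L i) ⟨x, hx⟩) = ρ x :=
        (hρ (IntermediateField.inclusion (le_iSup L i) ⟨x, hx⟩)).symm
      change σ (φ0 (IntermediateField.inclusion (le_iSup L i) ⟨x, hx⟩)) =
        φ0 (IntermediateField.inclusion (le_iSup L i) ⟨x, hx⟩) at h5
      rwa [h6] at h5
    ext x
    change σ (φ0 x) = φ0 x
    rw [← hρ]
    exact h4 x.2
  obtain ⟨i, hi⟩ := h3
  obtain ⟨-, e, hG⟩ := hL i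
  -- the projection
  obtain ⟨p, hp⟩ : ∃ p : Fin k → Fin n, p = fun a =>
      e ((eH.symm a).comp (IntermediateField.inclusion (le_iSup L i))) := ⟨_, rfl⟩
  have hp' : ∀ φ, p (eH φ) = e (φ.comp (IntermediateField.inclusion (le_iSup L i))) := by
    intro φ
    rw [hp]
    simp only
    rw [Equiv.symm_apply_apply]
  have hfib : ∀ b b' : Fin n, (Finset.univ.filter (fun a => p a = b)).card =
      (Finset.univ.filter (fun a => p a = b')).card := by
    intro b b'
    obtain ⟨τ, hτ⟩ := exists_trans (L i) (e.symm b) (e.symm b')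
    refine Finset.card_equiv ((eH.symm.trans (actE _ τ)).trans eH) ?_
    intro a
    obtain ⟨φ, rfl⟩ := eH.surjective a
    rw [Finset.mem_filter, Finset.mem_filter]
    have h4 : ((eH.symm.trans (actE _ τ)).trans eH) (eH φ) = eH (τ.toAlgHom.comp φ) := by
      change eH (τ.toAlgHom.comp (eH.symm (eH φ))) = _
      rw [Equiv.symm_apply_apply]
    rw [h4, hp', hp']
    have h5 : (τ.toAlgHom.comp φ).comp (IntermediateField.inclusion (le_iSup L i)) =
        τ.toAlgHom.comp (φ.comp (IntermediateField.inclusion (le_iSup L i))) := rfl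
    rw [h5]
    constructor
    · rintro ⟨-, h6⟩
      refine ⟨Finset.mem_univ _, ?_⟩
      have h7 : φ.comp (IntermediateField.inclusion (le_iSup L i)) = e.symm b := by
        rw [← h6, Equiv.symm_apply_apply]
      rw [h7, hτ, Equiv.apply_symm_apply]
    · rintro ⟨-, h6⟩
      refine ⟨Finset.mem_univ _, ?_⟩
      have h7 : τ.toAlgHom.comp (φ.comp (IntermediateField.inclusion (le_iSup L i))) =
          τ.toAlgHom.comp (e.symm b) := by
        rw [hτ, ← h6, Equiv.symm_apply_apply]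
      have h8 := (actE (L i) τ).injective h7
      rw [h8, Equiv.apply_symm_apply]
  obtain ⟨b₀⟩ : Nonempty (Fin n) := ⟨⟨0, hn⟩⟩
  obtain ⟨f, hf⟩ : ∃ f, f = (Finset.univ.filter (fun a => p a = b₀)).card := ⟨_, rfl⟩
  have hf' : ∀ b, (Finset.univ.filter (fun a => p a = b)).card = f := fun b => by
    rw [hf]
    exact hfib b b₀
  have hk : k = n * f := by
    have h4 := Finset.card_eq_sum_card_fiberwise (s := (Finset.univ : Finset (Fin k)))
      (t := (Finset.univ : Finset (Fin n))) (f := p) (fun a _ => Finset.mem_coe.2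
        (Finset.mem_univ (p a)))
    rw [Finset.card_univ, Fintype.card_fin] at h4
    rw [h4, Finset.sum_congr rfl fun b _ => hf' b, Finset.sum_const, Finset.card_univ,
      Fintype.card_fin, smul_eq_mul]
  -- the element of `G`
  obtain ⟨g, hg⟩ : ∃ g : Equiv.Perm (Fin n), g = (e.symm.trans (actE _ σ)).trans e := ⟨_, rfl⟩
  have hg' : ∀ ψ, g (e ψ) = e (σ.toAlgHom.comp ψ) := by
    intro ψ
    rw [hg]
    change e (σ.toAlgHom.comp (e.symm (e ψ))) = _
    rw [Equiv.symm_apply_apply]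
  have hgG : g ∈ G := (hG g).2 ⟨σ, hg'⟩
  have hg1 : g ≠ 1 := by
    intro hg1
    apply hi
    have h4 := hg' (φ0.comp (IntermediateField.inclusion (le_iSup L i)))
    rw [hg1] at h4
    exact (e.injective h4).symm
  have hpg : ∀ a, p (h a) = g (p a) := by
    intro a
    obtain ⟨φ, rfl⟩ := eH.surjective a
    rw [hσ, hp', hp', hg']
    rfl
  have h5 := h1 k n f p hf' h g hpg
  have h6 := hm g hgG hg1
  calc k * m = n * (f * m) := by rw [hk]; ring
    _ ≤ n * (f * ind g) := Nat.mul_le_mul_left _ (Nat.mul_le_mul_left _ h6)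
    _ ≤ n * ind h := Nat.mul_le_mul_left _ h5

end

end Pool.Agent.W505.ML2
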